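import Pool.Agent.H752.KM.Stubs

/-! Project KM, task K4a: an oracle algorithm depends on few questions. -/

namespace Pool.Agent.H752.KM

open Pool.Agent.NPC Pool.Agent.H620R2.Gauge

theorem t_local : St_local := by
  classical
  intro M A x n
  induction n with
  | zero =>
    intro a
    exact ⟨∅, by simp, fun A' _ => rfl⟩
  | succ n ih =>
    intro a
    rcases hq : M.D (pairBits x a) with _ | ⟨c, q⟩
    · exact ⟨∅, by simp, fun A' _ => by simp only [Alg.run, hq]⟩
    · cases c with
      | true => exact ⟨∅, by simp, fun A' _ => by simp only [Alg.run, hq]⟩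
      | false =>
        obtain ⟨Q, h1, h3⟩ := ih (a ++ [A q])
        refine ⟨insert q Q, (Finset.card_insert_le _ _).trans (by omega), ?_⟩
        intro A' hA'
        simp only [Alg.run, hq]
        rw [hA' q (Finset.mem_insert_self _ _)]
        exact h3 A' fun y hy => hA' y (Finset.mem_insert_of_mem hy)

end Pool.Agent.H752.KM
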